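import Pool.Agent.helper32.TRI.Spec

set_option autoImplicit false

open Finset

namespace Pool.Agent.TRI

open Pool.Agent.EXC

theorem M5B_pow : z5 ^ 5 = 1 := by decide +kernel

theorem M5B : M5B_stmt := by
  intro F _ Z hZ N hN
  obtain ⟨c, hc⟩ := hN
  by_contra h5
  have hA5 : (Z : Matrix (Fin 4) (Fin 4) F) ^ 5 = 1 := by
    have h1 : (Z : Matrix (Fin 4) (Fin 4) F) = (Int.castRingHom F).mapMatrix z5 := by
      rw [hZ]; rfl
    rw [h1, ← map_pow, M5B_pow, map_one]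
  have hcop : Nat.Coprime N 5 := (Nat.Coprime.symm ((Nat.Prime.coprime_iff_not_dvd (by norm_num)).2 h5))
  obtain ⟨a, ha⟩ := Nat.exists_mul_mod_eq_one_of_coprime hcop (by norm_num)
  have hb : N * a = 5 * (N * a / 5) + 1 := by
    have := Nat.div_add_mod (N * a) 5
    omega
  have hAN : (Z : Matrix (Fin 4) (Fin 4) F) ^ N = c • (1 : Matrix (Fin 4) (Fin 4) F) := by
    rw [← hc, Matrix.SpecialLinearGroup.coe_pow]
  have h1 : (Z : Matrix (Fin 4) (Fin 4) F) ^ (N * a) = c ^ a • (1 : Matrix (Fin 4) (Fin 4) F) := by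
    rw [pow_mul, hAN, smul_pow, one_pow]
  rw [hb, pow_succ, pow_mul, hA5, one_pow, one_mul] at h1
  have h2 := congrFun (congrFun h1 1) 0
  rw [hZ] at h2
  simp [z5] at h2

end Pool.Agent.TRI
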